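import Pool.Agent.Helper9.Stokes.Tri

/-!
# Growth along one ray determines the coefficients of flat sections
-/

set_option autoImplicit false

namespace Pool.Agent.Helper9.Stokes

open Matrix Filter Topology Asymptotics

/-- exponential growth beats powers -/
theorem coeff_zero (c a : ℂ) (φ : ℝ) (ha : 0 < (a * Complex.exp (-φ * Complex.I)).re) (m : ℕ)
    (h : (fun s : ℝ => c * Complex.exp (a * Complex.exp (-(s + φ * Complex.I)))) =O[atBot]
      fun s : ℝ => Real.exp (-(m : ℝ) * s)) : c = 0 := by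
  set δ : ℝ := (a * Complex.exp (-φ * Complex.I)).re with hδ
  obtain ⟨K, hK⟩ := h.bound
  have h1 : ∀ᶠ s : ℝ in atBot, ‖c‖ ≤ K * ((Real.exp (-s)) ^ m * Real.exp (-(δ * Real.exp (-s)))) := by
    filter_upwards [hK] with s hs
    rw [norm_mul, Complex.norm_exp] at hs
    have h2 : (a * Complex.exp (-(s + φ * Complex.I))).re = δ * Real.exp (-s) := by
      have : a * Complex.exp (-(s + φ * Complex.I)) =
          ((Real.exp (-s) : ℝ) : ℂ) * (a * Complex.exp (-φ * Complex.I)) := by
        rw [Complex.ofReal_exp, show -((s : ℂ) + φ * Complex.I) = ((-s : ℝ) : ℂ) + -φ * Complex.I by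
          push_cast; ring, Complex.exp_add]
        ring
      rw [this, Complex.re_ofReal_mul, hδ, mul_comm]
    rw [h2, Real.norm_eq_abs, abs_of_pos (Real.exp_pos _)] at hs
    have h3 : Real.exp (-(m : ℝ) * s) = (Real.exp (-s)) ^ m := by
      rw [← Real.exp_nat_mul]; congr 1; ring
    rw [h3] at hs
    have h4 := mul_le_mul_of_nonneg_right hs (Real.exp_pos (-(δ * Real.exp (-s)))).le
    rw [mul_assoc, ← Real.exp_add, add_neg_cancel, Real.exp_zero, mul_one] at h4
    rw [← mul_assoc]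
    exact h4
  have h5 : Tendsto (fun s : ℝ => Real.exp (-s)) atBot atTop :=
    Real.tendsto_exp_atTop.comp tendsto_neg_atBot_atTop
  have h6 : Tendsto (fun x : ℝ => K * (x ^ m * Real.exp (-(δ * x)))) atTop (𝓝 0) := by
    have h7 : Tendsto (fun x : ℝ => δ * x) atTop atTop := tendsto_id.const_mul_atTop ha
    have h8 := (Real.tendsto_pow_mul_exp_neg_atTop_nhds_zero m).comp h7
    have h9 := h8.const_mul (K * (δ ^ m)⁻¹)
    rw [mul_zero] at h9
    refine h9.congr fun x => ?_
    simp only [Function.comp_apply]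
    rw [mul_pow]
    have : (δ ^ m) ≠ 0 := pow_ne_zero _ ha.ne'
    field_simp
  have h10 := h6.comp h5
  have h11 : ‖c‖ ≤ 0 := ge_of_tendsto h10 h1
  exact norm_le_zero_iff.1 h11

variable {ι : Type} [Fintype ι] [DecidableEq ι]

/-- If `T = Xp(w - πi)ᵀ η Y(w)`, where `Xp ~ Ψ e^{U/z}` on the ray opposite to `arg z = φ` and the
`j`-th column of `Y` is `O(|z|^{-m} |e^{u_j/z}|)` on the ray `arg z = φ`, then `T k j = 0` whenever
`e^{u_k/z}` grows faster than `e^{u_j/z}` on the ray `arg z = φ`. -/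
theorem growth_upper (η : Matrix ι ι ℂ) (Xp Y : ℂ → Matrix ι ι ℂ) (T : Matrix ι ι ℂ) (u : ι → ℂ)
    (Ψ : Matrix ι ι ℂ) (φ : ℝ)
    (hT : ∀ w, (Xp (w - Real.pi * Complex.I))ᵀ * η * Y w = T)
    (hXp : Tendsto (fun s : ℝ => Xp (s + ((φ - Real.pi : ℝ) : ℂ) * Complex.I) *
      Matrix.diagonal fun j => Complex.exp (-u j *
        Complex.exp (-(s + ((φ - Real.pi : ℝ) : ℂ) * Complex.I)))) atBot (𝓝 Ψ))
    (j : ι) (hY : ∃ m : ℕ, ∀ i, (fun s : ℝ => Y (s + φ * Complex.I) i j *
      Complex.exp (-u j * Complex.exp (-(s + φ * Complex.I)))) =O[atBot]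
        fun s : ℝ => Real.exp (-(m : ℝ) * s))
    (k : ι) (hkj : 0 < ((u k - u j) * Complex.exp (-φ * Complex.I)).re) : T k j = 0 := by
  obtain ⟨m, hY⟩ := hY
  refine coeff_zero (T k j) (u k - u j) φ hkj m ?_
  have h1 : ∀ s : ℝ, T k j * Complex.exp ((u k - u j) * Complex.exp (-(s + φ * Complex.I))) =
      ∑ b, (∑ a, (Xp (s + ((φ - Real.pi : ℝ) : ℂ) * Complex.I) a k * Complex.exp (-u k *
        Complex.exp (-(s + ((φ - Real.pi : ℝ) : ℂ) * Complex.I)))) * η a b) *
        (Y (s + φ * Complex.I) b j * Complex.exp (-u j * Complex.exp (-(s + φ * Complex.I)))) := by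
    intro s
    have h2 : ((s : ℂ) + φ * Complex.I) - Real.pi * Complex.I =
        s + ((φ - Real.pi : ℝ) : ℂ) * Complex.I := by push_cast; ring
    have h3 : Complex.exp (-(s + ((φ - Real.pi : ℝ) : ℂ) * Complex.I)) =
        - Complex.exp (-(s + φ * Complex.I)) := by
      rw [← h2, show -((s : ℂ) + φ * Complex.I - Real.pi * Complex.I) =
        -(s + φ * Complex.I) + Real.pi * Complex.I by ring, Complex.exp_add, Complex.exp_pi_mul_I]
      ring
    rw [← hT (s + φ * Complex.I), h2, h3, Matrix.mul_apply, Finset.sum_mul]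
    refine Finset.sum_congr rfl fun b _ => ?_
    rw [Matrix.mul_apply, Finset.sum_mul, Finset.sum_mul, Finset.sum_mul]
    refine Finset.sum_congr rfl fun a _ => ?_
    have h8 : Complex.exp ((u k - u j) * Complex.exp (-(s + φ * Complex.I))) =
        Complex.exp (-u k * -Complex.exp (-(s + φ * Complex.I))) *
          Complex.exp (-u j * Complex.exp (-(s + φ * Complex.I))) := by
      rw [← Complex.exp_add]; congr 1; ring
    rw [Matrix.transpose_apply, h8]
    ring
  simp_rw [h1]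
  refine IsBigO.fun_sum fun b _ => ?_
  have h4 : (fun s : ℝ => ∑ a, (Xp (s + ((φ - Real.pi : ℝ) : ℂ) * Complex.I) a k *
      Complex.exp (-u k * Complex.exp (-(s + ((φ - Real.pi : ℝ) : ℂ) * Complex.I)))) * η a b)
      =O[atBot] fun _ : ℝ => (1 : ℝ) := by
    refine IsBigO.fun_sum fun a _ => ?_
    have h5 : Tendsto (fun s : ℝ => Xp (s + ((φ - Real.pi : ℝ) : ℂ) * Complex.I) a k *
        Complex.exp (-u k * Complex.exp (-(s + ((φ - Real.pi : ℝ) : ℂ) * Complex.I)))) atBot
        (𝓝 (Ψ a k)) := by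
      have h6 := ((continuous_apply_apply a k).tendsto Ψ).comp hXp
      refine h6.congr fun s => ?_
      exact Matrix.mul_diagonal _ _ _ _
    exact (h5.mul_const (η a b)).isBigO_one ℝ
  have h7 := h4.mul (hY b)
  simp only [one_mul] at h7
  exact h7

end Pool.Agent.Helper9.Stokes
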