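import Pool.Agent.Helper7.DubStokes.Main
import Pool.Agent.Helper9.Stokes.Grow

/-!
# Growth criterion for condition (a) of Dubrovin's conjecture
-/

set_option autoImplicit false

namespace Pool.Agent.Helper9.Stokes

open Matrix Filter Topology Asymptotics
open Pool.Agent.Helper18.Dub Pool.Agent.Helper7.DubStokes

variable {N : ℕ} {X : FanoGW (Fin N)} {t : Fin N → ℂ}

/-- The pairing `(Z(e^{πi} z) a, Z(z) b)` of flat sections, `z = e^w`, where
`Z = 𝒮(t,z) z^θ z^{-ρ}`; it does not depend on `w`. -/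
noncomputable def flatPairing (M : MonodromyData X t) (a b : Fin N → ℂ) (w : ℂ) : ℂ :=
  dotProduct ((zSol X M.𝒮 (w + Real.pi * Complex.I)).mulVec a)
    (X.pair.mulVec ((zSol X M.𝒮 w).mulVec b))

theorem flatPairing_cols (M : MonodromyData X t) (A V : Matrix (Fin N) (Fin N) ℂ) (w : ℂ)
    (i j : Fin N) :
    Stokes.flatPairing M (A.mulVec fun a => V a i) (A.mulVec fun a => V a j) w =
      ((A * V)ᵀ * ((zSol X M.𝒮 (w + Real.pi * Complex.I))ᵀ * X.pair * zSol X M.𝒮 w) * (A * V))
        i j := by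
  have h1 : ∀ k : Fin N, (A.mulVec fun a => V a k) = fun b => (A * V) b k := by
    intro k
    funext b
    simp [Matrix.mulVec, dotProduct, Matrix.mul_apply]
  unfold Stokes.flatPairing
  rw [h1, h1]
  have h2 : ∀ (P Q R : Matrix (Fin N) (Fin N) ℂ), dotProduct (P.mulVec fun b => Q b i)
      (X.pair.mulVec (R.mulVec fun b => Q b j)) = (Qᵀ * (Pᵀ * X.pair * R) * Q) i j := by
    intro P Q R
    have e1 : (P.mulVec fun b => Q b i) = fun b => (P * Q) b i := by
      funext b
      simp [Matrix.mulVec, dotProduct, Matrix.mul_apply]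
    have e2 : (X.pair.mulVec (R.mulVec fun b => Q b j)) = fun b => (X.pair * R * Q) b j := by
      rw [Matrix.mulVec_mulVec]
      funext b
      simp [Matrix.mulVec, dotProduct, Matrix.mul_apply]
    rw [e1, e2]
    have e3 : Qᵀ * (Pᵀ * X.pair * R) * Q = (P * Q)ᵀ * (X.pair * R * Q) := by
      rw [Matrix.transpose_mul]
      simp only [Matrix.mul_assoc]
    rw [e3, Matrix.mul_apply]
    rfl
  exact h2 _ _ _

theorem pairing_C (M : MonodromyData X t) (w : ℂ) :
    M.Cᵀ * ((zSol X M.𝒮 (w + Real.pi * Complex.I))ᵀ * X.pair * zSol X M.𝒮 w) * M.C = M.S := by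
  have h := M.pairing_minus_minus w
  rw [M.central, M.central, Matrix.transpose_mul] at h
  rw [← h]
  simp only [Matrix.mul_assoc]

theorem unitri_S (M : MonodromyData X t) : Unitri M.S := M.S_entries

/-- **Growth criterion.** -/
theorem growth_criterion (M : MonodromyData X t) (T : Fin N → ℂ)
    (V G : Matrix (Fin N) (Fin N) ℂ)
    (hGV : ∀ i j, G i j = eulerForm X T (fun a => V a i) (fun a => V a j))
    (hG1 : ∀ i, G i i = 1) (hG : ∀ i j, j < i → G i j = 0) :
    (∃ ε : Fin N → ℤˣ, ∀ i j, M.S i j = ((ε i : ℤ) : ℂ) * ((ε j : ℤ) : ℂ) * G i j) ↔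
    ∃ A : Matrix (Fin N) (Fin N) ℂ,
      (∀ a b w, Stokes.flatPairing M (A.mulVec a) (A.mulVec b) w = eulerForm X T a b) ∧
      ∀ j, GrowthAtMost M (A.mulVec fun a => V a j) (M.u j) := by
  have hGd := MonodromyData.isUnit_of_unitriangular G hG1 hG
  have hVG : G = V.transpose * gram X T * V := by
    ext i j
    rw [hGV, eulerForm_cols]
  have hV : IsUnit V := by
    rw [Matrix.isUnit_iff_isUnit_det]
    rw [hVG, Matrix.det_mul] at hGd
    exact isUnit_of_mul_isUnit_right hGd
  have hVd : IsUnit V.det := (Matrix.isUnit_iff_isUnit_det _).1 hV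
  have hCd : IsUnit M.C.det := (Matrix.isUnit_iff_isUnit_det _).1 M.C_isUnit
  constructor
  · rintro ⟨ε, hε⟩
    set D : Matrix (Fin N) (Fin N) ℂ := Matrix.diagonal fun i => ((ε i : ℤ) : ℂ) with hD
    have hDt : Dᵀ = D := Matrix.diagonal_transpose _
    have hDSD : D * M.S * D = G := by
      ext i j
      rw [hD, Matrix.mul_diagonal, Matrix.diagonal_mul, hε]
      have h1 : ∀ i, ((ε i : ℤ) : ℂ) * ((ε i : ℤ) : ℂ) = 1 := by
        intro i
        rcases Int.units_eq_one_or (ε i) with h | h <;> rw [h] <;> norm_num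
      linear_combination (((ε j : ℤ) : ℂ) * ((ε j : ℤ) : ℂ) * G i j) * h1 i + G i j * h1 j
    refine ⟨M.C * D * V⁻¹, ?_, ?_⟩
    · intro a b w
      have e0 : ∀ x : Fin N → ℂ, x = (V.mulVec (V⁻¹.mulVec x)) := by
        intro x
        rw [Matrix.mulVec_mulVec, Matrix.mul_nonsing_inv _ hVd, Matrix.one_mulVec]
      set Pi₀ := (zSol X M.𝒮 (w + Real.pi * Complex.I))ᵀ * X.pair * zSol X M.𝒮 w with hPi
      set A := M.C * D * V⁻¹ with hA
      have h3 : Aᵀ * Pi₀ * A = gram X T := by
        have h4 : A * V = M.C * D := by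
          rw [hA, Matrix.nonsing_inv_mul_cancel_right _ _ hVd]
        have h5 : Vᵀ * (Aᵀ * Pi₀ * A) * V = Vᵀ * gram X T * V := by
          rw [← hVG, ← hDSD, ← pairing_C M w, ← hPi]
          calc Vᵀ * (Aᵀ * Pi₀ * A) * V = (A * V)ᵀ * Pi₀ * (A * V) := by
                rw [Matrix.transpose_mul A V]; simp only [Matrix.mul_assoc]
            _ = D * (M.Cᵀ * Pi₀ * M.C) * D := by
                rw [h4, Matrix.transpose_mul, hDt]; simp only [Matrix.mul_assoc]
        have hVt : IsUnit Vᵀ := by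
          rw [Matrix.isUnit_iff_isUnit_det, Matrix.det_transpose]; exact hVd
        rw [Matrix.mul_assoc, Matrix.mul_assoc Vᵀ (gram X T)] at h5
        exact hV.mul_right_cancel (hVt.mul_left_cancel h5)
      have h6 : Stokes.flatPairing M (A.mulVec a) (A.mulVec b) w = dotProduct a ((Aᵀ * Pi₀ * A).mulVec b) := by
        unfold Stokes.flatPairing
        rw [hPi, Matrix.mulVec_mulVec, Matrix.mulVec_mulVec, Matrix.mulVec_mulVec,
          Matrix.dotProduct_mulVec, Matrix.vecMul_mulVec, ← Matrix.dotProduct_mulVec]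
        congr 2
        rw [Matrix.transpose_mul]
        simp only [Matrix.mul_assoc]
      rw [h6, h3, eulerForm_eq]
      simp only [dotProduct, Matrix.mulVec, Finset.mul_sum, mul_assoc]
    · intro j
      refine ⟨0, fun i => ?_⟩
      have h7 : ∀ w, (zSol X M.𝒮 w).mulVec ((M.C * D * V⁻¹).mulVec fun a => V a j) i =
          M.Xminus w i j * ((ε j : ℤ) : ℂ) := by
        intro w
        have e1 : ((M.C * D * V⁻¹).mulVec fun a => V a j) = fun b => (M.C * D) b j := by
          have h12 : M.C * D * V⁻¹ * V = M.C * D := by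
            rw [Matrix.nonsing_inv_mul_cancel_right _ _ hVd]
          funext b
          rw [← congrFun (congrFun h12 b) j]
          rfl
        rw [e1]
        have e2 : (zSol X M.𝒮 w).mulVec (fun b => (M.C * D) b j) i =
            (zSol X M.𝒮 w * (M.C * D)) i j := by
          rw [Matrix.mul_apply]; rfl
        rw [e2, ← Matrix.mul_assoc, ← M.central, hD, Matrix.mul_diagonal]
      simp only [h7]
      have h8 := M.minus_asymptotics M.φ ⟨by linarith [M.ε_pos], by
        linarith [M.ε_pos, Real.pi_pos]⟩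
      have h9 := ((continuous_apply_apply i j).tendsto M.Ψ).comp h8
      have h10 : Tendsto (fun s : ℝ => M.Xminus (s + M.φ * Complex.I) i j * ((ε j : ℤ) : ℂ) *
          Complex.exp (-M.u j * Complex.exp (-(s + M.φ * Complex.I)))) atBot
          (𝓝 (M.Ψ i j * ((ε j : ℤ) : ℂ))) := by
        refine (h9.mul_const ((ε j : ℤ) : ℂ)).congr fun s => ?_
        have h13 := Matrix.mul_diagonal (fun j => Complex.exp (-M.u j *
          Complex.exp (-(s + M.φ * Complex.I)))) (M.Xminus (s + M.φ * Complex.I)) i j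
        show (M.Xminus (s + M.φ * Complex.I) * Matrix.diagonal fun j => Complex.exp (-M.u j *
          Complex.exp (-(s + M.φ * Complex.I)))) i j * _ = _
        rw [h13]
        ring
      have h11 := h10.isBigO_one ℝ
      refine h11.congr_right fun s => ?_
      simp
  · rintro ⟨A, hA, hgr⟩
    set Pi₀ := (zSol X M.𝒮 (0 + Real.pi * Complex.I))ᵀ * X.pair * zSol X M.𝒮 0 with hPi
    have h1 : (A * V)ᵀ * Pi₀ * (A * V) = G := by
      ext i j
      rw [hGV, ← hA _ _ 0, flatPairing_cols]
    set R := M.C⁻¹ * (A * V) with hR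
    have hCR : M.C * R = A * V := by
      rw [hR, Matrix.mul_nonsing_inv_cancel_left _ _ hCd]
    have h2 : Rᵀ * M.S * R = G := by
      rw [← pairing_C M 0, ← hPi, ← h1, ← hCR, Matrix.transpose_mul M.C R]
      simp only [Matrix.mul_assoc]
    have h3 : ∀ k j, j < k → R k j = 0 := by
      intro k j hkj
      refine growth_upper X.pair M.Xplus (fun w => zSol X M.𝒮 w * (A * V)) R M.u M.Ψ M.φ
        (fun w => ?_) ?_ j ?_ k (M.ordered_re j k hkj)
      · rw [← hCR, ← Matrix.mul_assoc (zSol X M.𝒮 w), ← M.central, ← Matrix.mul_assoc,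
          M.pairing_plus_minus, Matrix.one_mul]
      · exact M.plus_asymptotics (M.φ - Real.pi) ⟨by linarith [M.ε_pos], by
          linarith [M.ε_pos, Real.pi_pos]⟩
      · obtain ⟨m, hm⟩ := hgr j
        refine ⟨m, fun i => ?_⟩
        have e1 : ∀ w, (zSol X M.𝒮 w * (A * V)) i j =
            (zSol X M.𝒮 w).mulVec (A.mulVec fun a => V a j) i := by
          intro w
          rw [Matrix.mulVec_mulVec, ← Matrix.mul_assoc, Matrix.mul_apply]
          rfl
        simp only [e1]
        exact hm i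
    obtain ⟨h4, h5⟩ := tri_congr (unitri_S M) ⟨hG1, hG⟩ h3 h2
    have h6 : ∀ i, ∃ e : ℤˣ, R i i = ((e : ℤ) : ℂ) := by
      intro i
      rcases mul_self_eq_one_iff.1 (h5 i) with h | h
      · exact ⟨1, by rw [h]; norm_num⟩
      · exact ⟨-1, by rw [h]; norm_num⟩
    choose ε hε using h6
    refine ⟨ε, fun i j => ?_⟩
    have h7 : R = Matrix.diagonal fun i => ((ε i : ℤ) : ℂ) := by
      ext i j
      by_cases hij : i = j
      · subst hij; rw [Matrix.diagonal_apply_eq, hε]
      · rw [Matrix.diagonal_apply_ne _ hij, h4 i j hij]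
    rw [← h2, h7, Matrix.diagonal_transpose, Matrix.mul_diagonal, Matrix.diagonal_mul]
    have h8 : ∀ i, ((ε i : ℤ) : ℂ) * ((ε i : ℤ) : ℂ) = 1 := by
      intro i
      rcases Int.units_eq_one_or (ε i) with h | h <;> rw [h] <;> norm_num
    linear_combination (-(((ε j : ℤ) : ℂ) * ((ε j : ℤ) : ℂ) * M.S i j)) * h8 i - M.S i j * h8 j

end Pool.Agent.Helper9.Stokes
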