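import Mathlib

/-!
# Unitriangular matrices: uniqueness of the (upper)(lower) factorisation
-/

set_option autoImplicit false

namespace Pool.Agent.Helper9.Stokes

open Matrix

variable {ι : Type} [Fintype ι] [DecidableEq ι] [LinearOrder ι]

/-- upper unitriangular matrices -/
def Unitri (S : Matrix ι ι ℂ) : Prop := (∀ i, S i i = 1) ∧ ∀ i j, j < i → S i j = 0

theorem Unitri.block {S : Matrix ι ι ℂ} (h : Unitri S) : BlockTriangular S id := fun i j hij =>
  h.2 i j hij

theorem Unitri.det {S : Matrix ι ι ℂ} (h : Unitri S) : S.det = 1 := by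
  rw [Matrix.det_of_upperTriangular h.block]
  exact Finset.prod_eq_one fun i _ => h.1 i

theorem mul_diag_of_block {A B : Matrix ι ι ℂ} (hA : BlockTriangular A id)
    (hB : BlockTriangular B id) (i : ι) : (A * B) i i = A i i * B i i := by
  rw [Matrix.mul_apply]
  refine Finset.sum_eq_single i (fun k _ hk => ?_) (fun h => absurd (Finset.mem_univ i) h)
  rcases lt_or_gt_of_ne hk with h | h
  · rw [hA h, zero_mul]
  · rw [hB h, mul_zero]

theorem inv_block {S : Matrix ι ι ℂ} (h : BlockTriangular S id) (hS : IsUnit S.det) :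
    BlockTriangular S⁻¹ id := by
  haveI := S.invertibleOfIsUnitDet hS
  exact blockTriangular_inv_of_blockTriangular h

theorem eq_diag_of_block {A : Matrix ι ι ℂ} (h1 : BlockTriangular A id)
    (h2 : BlockTriangular Aᵀ id) (i j : ι) (hij : i ≠ j) : A i j = 0 := by
  rcases lt_or_gt_of_ne hij with h | h
  · exact h2 h
  · exact h1 h

/-- `S, G` upper unitriangular, `S M = Sᵀ`, `G M = Gᵀ` imply `S = G`. -/
theorem unitri_unique {S G M : Matrix ι ι ℂ} (hS : Unitri S) (hG : Unitri G)
    (h1 : S * M = Sᵀ) (h2 : G * M = Gᵀ) : S = G := by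
  have hSd : IsUnit S.det := by rw [hS.det]; exact isUnit_one
  have hSd' : IsUnit Sᵀ.det := by rw [Matrix.det_transpose]; exact hSd
  have hM : M = S⁻¹ * Sᵀ := by rw [← h1, Matrix.nonsing_inv_mul_cancel_left _ _ hSd]
  set P := G * S⁻¹ with hP
  have hPS : P * S = G := by rw [hP, Matrix.nonsing_inv_mul_cancel_right _ _ hSd]
  have hP1 : BlockTriangular P id := hG.block.mul (inv_block hS.block hSd)
  have hPt : Pᵀ = S⁻¹ * G := by
    have h3 : P * Sᵀ = Gᵀ := by rw [hP, Matrix.mul_assoc, ← hM, h2]
    have h4 : S * Pᵀ = G := by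
      have := congrArg Matrix.transpose h3
      rwa [Matrix.transpose_mul, Matrix.transpose_transpose, Matrix.transpose_transpose] at this
    rw [← h4, Matrix.nonsing_inv_mul_cancel_left _ _ hSd]
  have hP2 : BlockTriangular Pᵀ id := by
    rw [hPt]
    exact (inv_block hS.block hSd).mul hG.block
  have hPd : ∀ i, P i i = 1 := by
    intro i
    have := mul_diag_of_block hP1 hS.block i
    rw [hPS, hG.1, hS.1, mul_one] at this
    exact this.symm
  have hP3 : P = 1 := by
    ext i j
    by_cases hij : i = j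
    · subst hij; rw [hPd, Matrix.one_apply_eq]
    · rw [eq_diag_of_block hP1 hP2 i j hij, Matrix.one_apply_ne hij]
  rw [← hPS, hP3, Matrix.one_mul]

/-- `S, G` upper unitriangular, `T` upper triangular and `G = Tᵀ S T` imply that `T` is diagonal
with entries `± 1`. -/
theorem tri_congr {S G T : Matrix ι ι ℂ} (hS : Unitri S) (hG : Unitri G)
    (hT : ∀ i j, j < i → T i j = 0) (h : Tᵀ * S * T = G) :
    (∀ i j, i ≠ j → T i j = 0) ∧ ∀ i, T i i * T i i = 1 := by
  have hSd : IsUnit S.det := by rw [hS.det]; exact isUnit_one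
  have hTb : BlockTriangular T id := fun i j hij => hT i j hij
  have hTd : IsUnit T.det := by
    have := congrArg Matrix.det h
    rw [Matrix.det_mul, Matrix.det_mul, Matrix.det_transpose, hS.det, hG.det, mul_one] at this
    exact IsUnit.of_mul_eq_one _ this
  have h3 : Tᵀ = G * T⁻¹ * S⁻¹ := by
    rw [← h, Matrix.mul_nonsing_inv_cancel_right _ _ hTd, Matrix.mul_nonsing_inv_cancel_right _ _ hSd]
  have h4 : BlockTriangular Tᵀ id := by
    rw [h3]
    exact (hG.block.mul (inv_block hTb hTd)).mul (inv_block hS.block hSd)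
  have h5 : ∀ i j, i ≠ j → T i j = 0 := eq_diag_of_block hTb h4
  refine ⟨h5, fun i => ?_⟩
  have h6 := congrFun (congrFun h i) i
  rw [mul_diag_of_block (h4.mul hS.block) hTb, mul_diag_of_block h4 hS.block, hS.1, hG.1,
    Matrix.transpose_apply, mul_one] at h6
  exact h6

end Pool.Agent.Helper9.Stokes
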